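import Pool.Agent.N929.OM.Stm

/-!
OM/EXIT: the path leaves the domain (helper293 for the project OM of helper929, after the part EXIT of
the project ON by helper31).
-/

set_option autoImplicit false

namespace Pool.Agent.N293.OM

open Finset
open Pool.Agent.N929.ON Pool.Agent.N929.OM

lemma finF (V : Finset (ℤ × ℤ)) : {s : St | Inn V s}.Finite := by
  have h1 : ((V ×ˢ (Finset.univ : Finset (Fin 6)) : Finset St) : Set St).Finite :=
    Finset.finite_toSet _
  have h2 : ((fun s : St => ((s.1 - dir s.2, s.2) : St)) ''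
      ((V ×ˢ (Finset.univ : Finset (Fin 6)) : Finset St) : Set St)).Finite := h1.image _
  refine (h1.union h2).subset ?_
  rintro s (hs | hs)
  · left
    rw [Finset.mem_coe, Finset.mem_product]
    exact ⟨hs, Finset.mem_univ _⟩
  · right
    refine ⟨(rt s, s.2), ?_, ?_⟩
    · rw [Finset.mem_coe, Finset.mem_product]
      exact ⟨hs, Finset.mem_univ _⟩
    · simp only [rt, add_sub_cancel_right]

theorem exit (hinj : Pool.Agent.N929.ON.S_INJ) : Pool.Agent.N929.OM.S_EXIT := by
  intro V η σ R hR hF hB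
  obtain ⟨hpres, hin⟩ := hinj σ
  have hR' : (1 : ℤ) ≤ R := by exact_mod_cast hR
  have hQ0 : Q R (0, 0) := ⟨by show (0 : ℤ) ≤ R; omega, by show (0 : ℤ) ≤ R; omega,
    by show -(R : ℤ) ≤ 0 + 0; omega⟩
  have hQ1 : Q R (1, 0) := ⟨by show (1 : ℤ) ≤ R; omega, by show (0 : ℤ) ≤ R; omega,
    by show -(R : ℤ) ≤ 1 + 0; omega⟩
  obtain ⟨h0V, h0η⟩ := (hF (0, 0) hQ0).2 le_rfl
  obtain ⟨h1V, h1η⟩ := (hF (1, 0) hQ1).2 le_rfl
  have hrt : rt Pool.Agent.N929.OM.start = (1, 0) := by
    unfold rt Pool.Agent.N929.OM.start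
    simp [dir]
  have hstart : Val σ Pool.Agent.N929.OM.start := by
    refine ⟨?_, ?_⟩
    · show σ (0, 0) = true
      rw [hB _ h0V, h0η]
      simp
    · rw [hrt, hB _ h1V, h1η]
      simp
  have hsI : ¬ Inn V Pool.Agent.N929.OM.start := by
    rintro (h | h)
    · exact h0V h
    · rw [hrt] at h
      exact h1V h
  have hsucc : ∀ i, Pool.Agent.N929.OM.pt σ (i + 1) = step σ (Pool.Agent.N929.OM.pt σ i) := fun i =>
    Function.iterate_succ_apply' _ _ _
  have hval : ∀ i, Val σ (Pool.Agent.N929.OM.pt σ i) := by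
    intro i
    induction i with
    | zero => exact hstart
    | succ i ih => rw [hsucc]; exact hpres _ ih
  have hex : ∃ i, ¬ Inn V (Pool.Agent.N929.OM.pt σ (i + 1)) := by
    by_contra hno
    push Not at hno
    obtain ⟨i, j, hij, he⟩ := Set.Finite.exists_lt_map_eq_of_forall_mem
      (f := fun i => Pool.Agent.N929.OM.pt σ (i + 1)) (t := {s : St | Inn V s}) hno (finF V)
    have he' : Pool.Agent.N929.OM.pt σ (i + 1) = Pool.Agent.N929.OM.pt σ (j + 1) := he
    have hcancel : ∀ d n : ℕ, Pool.Agent.N929.OM.pt σ (n + d) = Pool.Agent.N929.OM.pt σ n →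
        Pool.Agent.N929.OM.pt σ d = Pool.Agent.N929.OM.pt σ 0 := by
      intro d n
      induction n with
      | zero => intro h; rwa [Nat.zero_add] at h
      | succ n ih =>
        intro h
        apply ih
        rw [show n + 1 + d = (n + d) + 1 by ring, hsucc, hsucc] at h
        exact hin _ _ (hval _) (hval _) h
    obtain ⟨d, hd⟩ : ∃ d, d + 1 = j - i := ⟨j - i - 1, by omega⟩
    have h1 : Pool.Agent.N929.OM.pt σ ((i + 1) + (d + 1)) = Pool.Agent.N929.OM.pt σ (i + 1) := by
      rw [he']; congr 1; omega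
    have h2 := hcancel (d + 1) (i + 1) h1
    have h3 := hno d
    rw [h2] at h3
    exact hsI h3
  refine ⟨hstart, hsI, hex, ?_, ?_⟩
  · intro i hi hil
    by_contra hc
    have h4 : i - 1 ∈ {i | ¬ Inn V (Pool.Agent.N929.OM.pt σ (i + 1))} := by
      show ¬ Inn V (Pool.Agent.N929.OM.pt σ (i - 1 + 1))
      rw [Nat.sub_add_cancel hi]
      exact hc
    have h5 : Pool.Agent.N929.OM.len V σ ≤ i - 1 := Nat.sInf_le h4
    omega
  · exact Nat.sInf_mem (s := {i | ¬ Inn V (Pool.Agent.N929.OM.pt σ (i + 1))}) hex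

end Pool.Agent.N293.OM
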